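import Pool.Agent.H96.Ach

set_option autoImplicit false
open Filter Topology MeasureTheory
open scoped Pointwise

namespace Pool.Agent.Results.MP_ee56ef_an.Counter

/-- the achievement set of the multigeometric series with terms k i / n ^ j, j at least one -/
def E (n m : ℕ) (k : Fin m → ℕ) : Set ℝ :=
  {s | ∃ A : Set (ℕ × Fin m), s = ∑' p, A.indicator (fun p => (k p.2 : ℝ) / (n : ℝ) ^ (p.1 + 1)) p}

/-- the set of subsums of the numbers k i -/
def Sig (m : ℕ) (k : Fin m → ℕ) : Finset ℕ :=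
  (Finset.univ : Finset (Finset (Fin m))).image (fun S => ∑ i ∈ S, k i)

/-- the example -/
def kk : Fin 4 → ℕ := ![16, 16, 8, 1]

open Pool.Agent.H96.Achv

/-- the example as a sequence -/
noncomputable def xs : ℕ → ℝ :=
  mg 4 (fun i => if i = 0 then 16 / 12 else if i = 1 then 16 / 12 else if i = 2 then 8 / 12 else 1 / 12)
    (1 / 12)

theorem xs_summ : Summable xs := (mg_hasSum 4 (by norm_num) _ _ (by norm_num) (by norm_num)).summable

theorem ach_sub : Ach xs ⊆ E 12 4 kk := by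
  rintro _ ⟨A, rfl⟩
  refine ⟨(Nat.divModEquiv 4).symm ⁻¹' A, ?_⟩
  rw [← (Nat.divModEquiv 4).symm.tsum_eq]
  congr 1
  funext p
  have e1 : (p.1 * 4 + p.2) % 4 = p.2 := by have := p.2.2; omega
  have e2 : (p.1 * 4 + p.2) / 4 = p.1 := by have := p.2.2; omega
  have : xs ((Nat.divModEquiv 4).symm p) = (kk p.2 : ℝ) / ((12 : ℕ) : ℝ) ^ (p.1 + 1) := by
    show (fun i => if i = 0 then 16 / 12 else if i = 1 then 16 / 12 else if i = 2 then 8 / 12 else 1 / 12)
      ((p.1 * 4 + p.2) % 4) * (1 / 12 : ℝ) ^ ((p.1 * 4 + p.2) / 4) = _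
    rw [e1, e2]
    obtain ⟨j, i⟩ := p
    fin_cases i <;> simp [kk, pow_succ] <;> field_simp
  by_cases h : (Nat.divModEquiv 4).symm p ∈ A
  · rw [Set.indicator_of_mem h, Set.indicator_of_mem (by exact h), this]
  · rw [Set.indicator_of_notMem h, Set.indicator_of_notMem (by exact h)]

theorem step (a b c d : ℝ) (ha : a = 0 ∨ a = 16) (hb : b = 0 ∨ b = 16) (hc : c = 0 ∨ c = 8)
    (hd : d = 0 ∨ d = 1) (t : ℝ) (ht : t ∈ Ach xs) : (a + b + c + d + t) / 12 ∈ Ach xs := by
  have h0 := xs_summ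
  have h1 := (summable_nat_add_iff 1).mpr h0
  have h2 := (summable_nat_add_iff 1).mpr h1
  have h3 := (summable_nat_add_iff 1).mpr h2
  have hs : ∀ n, xs (n + 4) = 1 / 12 * xs n := mg_shift 4 (by norm_num) _ _
  have y0 : xs 0 = 16 / 12 := by simp [xs, mg]
  have y1 : xs 1 = 16 / 12 := by simp [xs, mg]
  have y2 : xs 2 = 8 / 12 := by simp [xs, mg]
  have y3 : xs 3 = 1 / 12 := by simp [xs, mg]
  simp only [mem_succ h0 ((a + b + c + d + t) / 12), mem_succ h1, mem_succ h2, mem_succ h3]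
  simp only [add_assoc, Nat.reduceAdd, hs, mem_mul, zero_add, y0, y1, y2, y3]
  have k : ∀ s : ℝ, s = 1 / 12 * t → ∃ u ∈ Ach xs, s = 1 / 12 * u := fun s h => ⟨t, ht, h⟩
  rcases ha with rfl | rfl <;> [left; right] <;> rcases hb with rfl | rfl <;> [left; right; left; right] <;>
    rcases hc with rfl | rfl <;> [left; right; left; right; left; right; left; right] <;>
    rcases hd with rfl | rfl <;>
    [left; right; left; right; left; right; left; right; left; right; left; right; left; right; left;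
      right] <;> exact k _ (by ring)

/-- the tiling set -/
def J : Set ℝ := {z | ∃ j : ℤ, (j % 4 = 0 ∨ j % 4 = 1) ∧ z = j}

theorem mem_sum (n : ℕ) : ∀ j : ℤ, (j % 4 = 0 ∨ j % 4 = 1) → (j : ℝ) / 12 ^ n ∈ J + Ach xs := by
  induction n with
  | zero => exact fun j hj => ⟨j, ⟨j, hj, rfl⟩, 0, zero_mem _, by simp⟩
  | succ n ih =>
    intro j hj
    obtain ⟨_, ⟨i, hi, rfl⟩, t, ht, h⟩ := ih j hj
    simp only at h
    obtain ⟨a, b, c, d, l, ha, hb, hc, hd, hl, he⟩ : ∃ a b c d l : ℤ, (a = 0 ∨ a = 16) ∧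
        (b = 0 ∨ b = 16) ∧ (c = 0 ∨ c = 8) ∧ (d = 0 ∨ d = 1) ∧ (l % 4 = 0 ∨ l % 4 = 1) ∧
        i = a + b + c + d + 12 * l := by
      obtain ⟨e, he⟩ : ∃ e : ℤ, (e = 0 ∨ e = 1) ∧ (i - i % 4 - 12 * e) % 8 = 0 := by
        by_cases h8 : (i - i % 4) % 8 = 0
        · exact ⟨0, Or.inl rfl, by omega⟩
        · exact ⟨1, Or.inr rfl, by omega⟩
      obtain ⟨r, hr⟩ : ∃ r : ℤ, r = (i - i % 4 - 12 * e) % 48 := ⟨_, rfl⟩
      refine ⟨if r ≥ 16 then 16 else 0, if r ≥ 32 then 16 else 0, r % 16, i % 4,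
        e + 4 * ((i - i % 4 - 12 * e) / 48), ?_, ?_, ?_, ?_, ?_, ?_⟩
      · split_ifs <;> simp
      · split_ifs <;> simp
      · omega
      · omega
      · omega
      · split_ifs <;> omega
    refine ⟨l, ⟨l, hl, rfl⟩, _, step a b c d (by exact_mod_cast ha) (by exact_mod_cast hb)
      (by exact_mod_cast hc) (by exact_mod_cast hd) t ht, ?_⟩
    simp only
    rw [pow_succ, ← div_div, ← h, he]
    push_cast
    ring

theorem cover : J + Ach xs = Set.univ := by
  have hJ : IsClosed J := by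
    have : J = ((↑) : ℤ → ℝ) '' {j | j % 4 = 0 ∨ j % 4 = 1} := by
      ext z; simp [J, eq_comm]
    rw [this]
    exact Int.isClosedEmbedding_coe_real.isClosedMap _ (isClosed_discrete _)
  have hc : IsClosed (J + Ach xs) := hJ.add_right_of_isCompact (isCompact xs_summ)
  rw [← hc.closure_eq, Set.eq_univ_iff_forall]
  intro z
  rw [Metric.mem_closure_iff]
  intro ε hε
  obtain ⟨n, hn⟩ := pow_unbounded_of_one_lt (4 / ε) (show (1 : ℝ) < 12 by norm_num)
  have hp : (0 : ℝ) < 12 ^ n := by positivity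
  refine ⟨_, mem_sum n (4 * ⌊z * 12 ^ n / 4⌋) (Or.inl (by omega)), ?_⟩
  have h1 := Int.floor_le (z * 12 ^ n / 4)
  have h2 := Int.lt_floor_add_one (z * 12 ^ n / 4)
  rw [div_lt_iff₀ hε] at hn
  rw [Real.dist_eq, show z - ((4 * ⌊z * 12 ^ n / 4⌋ : ℤ) : ℝ) / 12 ^ n =
    (z * 12 ^ n - 4 * ⌊z * 12 ^ n / 4⌋) / 12 ^ n by push_cast; field_simp, abs_div, abs_of_pos hp,
    div_lt_iff₀ hp, abs_lt]
  constructor <;> linarith

theorem vol_pos : 0 < volume (E 12 4 kk) := by
  refine lt_of_lt_of_le ?_ (measure_mono ach_sub)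
  rw [pos_iff_ne_zero]
  intro h
  have h1 : (Set.univ : Set ℝ) ⊆ ⋃ j : ℤ, (fun z => z - (j : ℝ)) ⁻¹' Ach xs := by
    rw [← cover]
    rintro _ ⟨_, ⟨j, _, rfl⟩, t, ht, rfl⟩
    exact Set.mem_iUnion.mpr ⟨j, by simpa using ht⟩
  have h2 := measure_mono_null h1 (measure_iUnion_null (μ := volume) fun j => by
    simp only [sub_eq_add_neg]; rw [measure_preimage_add_right]; exact h)
  simp at h2

/-- The converse of the theorem of Nitecki fails, even for terms with greatest common divisor one. -/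
theorem result :
    ¬ (∀ (n m : ℕ) (k : Fin m → ℕ), 2 ≤ n → 1 ≤ m → (∀ i, 0 < k i) → (∀ i, ¬ n ∣ k i) →
        Finset.univ.gcd k = 1 → (Sig m k).card = n → 0 < volume (E n m k) →
        (Sig m k).image (fun s => s % n) = Finset.range n) := by
  intro h
  have := h 12 4 kk (by norm_num) (by norm_num) (by decide) (by decide) (by decide) (by decide) vol_pos
  revert this
  decide

end Pool.Agent.Results.MP_ee56ef_an.Counter
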